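import Pool.Agent.D0H44.DM.Stm2
import Pool.Agent.H388LH.ZG

set_option autoImplicit false

/-!
Discrete moments, module KP: the power of the derivative of zeta is bounded by a Gaussian average.
-/

namespace Pool.Agent.D0H24.DM

open MeasureTheory Set Filter
open Pool.Agent.D0H44.DM

theorem intg (g : ℝ → ℝ) (hg : Continuous g) (K : ℝ) (p : ℕ) (hb : ∀ x, |g x| ≤ K * (1 + |x|) ^ p)
    (b : ℝ) (hb0 : 0 < b) : Integrable (fun x => g x * Real.exp (-(b * x ^ 2))) := by
  have hK : 0 ≤ K := by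
    have := hb 0
    simp at this
    exact (abs_nonneg _).trans this
  have h1 : Integrable (fun x : ℝ => (K * ((p.factorial : ℝ) * Real.exp (1 + 1 / (2 * b)))) *
      Real.exp (-(b / 2) * x ^ 2)) := (integrable_exp_neg_mul_sq (by positivity)).const_mul _
  refine h1.mono' (by fun_prop) (Filter.Eventually.of_forall fun x => ?_)
  rw [norm_mul, Real.norm_eq_abs, Real.norm_eq_abs, Real.abs_exp]
  have h2 : (1 + |x|) ^ p ≤ (p.factorial : ℝ) * Real.exp (1 + |x|) := by
    have := Real.pow_div_factorial_le_exp (1 + |x|) (by positivity) p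
    rw [div_le_iff₀ (by positivity)] at this
    linarith
  have h3 : |x| ≤ 1 / (2 * b) + (b / 2) * x ^ 2 := by
    have h4 : 0 ≤ (b / 2) * (|x| - 1 / b) ^ 2 := by positivity
    have h5 : (b / 2) * (|x| - 1 / b) ^ 2 = (b / 2) * |x| ^ 2 - |x| + 1 / (2 * b) := by
      field_simp
      ring
    rw [sq_abs] at h5
    linarith
  have h6 : Real.exp (1 + |x|) * Real.exp (-(b * x ^ 2)) ≤
      Real.exp (1 + 1 / (2 * b)) * Real.exp (-(b / 2) * x ^ 2) := by
    rw [← Real.exp_add, ← Real.exp_add]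
    apply Real.exp_le_exp.2
    linarith
  calc |g x| * Real.exp (-(b * x ^ 2)) ≤ (K * (1 + |x|) ^ p) * Real.exp (-(b * x ^ 2)) := by
        gcongr
        exact hb x
    _ ≤ (K * ((p.factorial : ℝ) * Real.exp (1 + |x|))) * Real.exp (-(b * x ^ 2)) := by gcongr
    _ = (K * p.factorial) * (Real.exp (1 + |x|) * Real.exp (-(b * x ^ 2))) := by ring
    _ ≤ (K * p.factorial) * (Real.exp (1 + 1 / (2 * b)) * Real.exp (-(b / 2) * x ^ 2)) := by gcongr
    _ = _ := by ring

theorem zline_bound (σ : ℝ) (h1 : 1 / 4 ≤ σ) (h2 : σ ≤ 3 / 4) (t : ℝ) :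
    ‖riemannZeta (σ + Complex.I * t)‖ ≤ 9 * (1 + |t|) := by
  have h := Pool.Agent.H388LH.zeta_growth' (s := (σ : ℂ) + Complex.I * t) (by simpa using h1)
    (by simpa using h2)
  simpa using h

theorem zline_cont (σ : ℝ) (h2 : σ ≤ 3 / 4) (t : ℝ) :
    Continuous (fun x : ℝ => riemannZeta (σ + Complex.I * ((t + x : ℝ) : ℂ))) := by
  rw [continuous_iff_continuousAt]
  intro x
  have h1 : (σ : ℂ) + Complex.I * ((t + x : ℝ) : ℂ) ≠ 1 := by
    intro h
    have := congrArg Complex.re h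
    simp at this
    linarith
  exact ContinuousAt.comp (f := fun x : ℝ => (σ : ℂ) + Complex.I * ((t + x : ℝ) : ℂ))
    (differentiableAt_riemannZeta h1).continuousAt (by fun_prop)

theorem zl_eq (t : ℝ) : zl t = riemannZeta (((1 / 2 : ℝ) : ℂ) + Complex.I * t) := by
  unfold zl
  push_cast
  rfl

theorem zs_eq (δ t : ℝ) : zs δ t = riemannZeta (((1 / 2 + δ : ℝ) : ℂ) + Complex.I * t) := by
  unfold zs
  push_cast
  rfl

theorem zl_pow_int (p : ℕ) (b : ℝ) (hb : 0 < b) (t : ℝ) :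
    Integrable (fun x : ℝ => ‖zl (t + x)‖ ^ p * Real.exp (-(b * x ^ 2))) := by
  have hc : Continuous (fun x : ℝ => ‖zl (t + x)‖ ^ p) := by
    simp only [zl_eq]
    exact (zline_cont (1 / 2) (by norm_num) t).norm.pow p
  refine intg _ hc ((9 * (1 + |t|)) ^ p) p (fun x => ?_) b hb
  rw [abs_of_nonneg (by positivity), ← mul_pow]
  apply pow_le_pow_left₀ (norm_nonneg _)
  rw [zl_eq]
  refine (zline_bound (1 / 2) (by norm_num) (by norm_num) _).trans ?_
  have h1 : |t + x| ≤ |t| + |x| := abs_add_le t x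
  have h2 : 0 ≤ |t| * |x| := by positivity
  nlinarith

theorem t_KP : S_KD → S_KL → S_KF → S_KP := by
  intro hKD hKL hKF δ hδ hδ4 p hp
  obtain ⟨C1, hC1, h1⟩ := hKD δ hδ hδ4
  obtain ⟨C2, hC2, h2⟩ := hKL δ hδ hδ4
  obtain ⟨C3, hC3, h3⟩ := hKF δ hδ hδ4
  set m : ℝ := ∫ x : ℝ, Real.exp (-((1 / 4) * x ^ 2)) with hm
  have hmi : Integrable (fun x : ℝ => Real.exp (-((1 / 4) * x ^ 2))) := by
    have := intg (fun _ => 1) continuous_const 1 0 (fun x => by simp) (1 / 4) (by norm_num)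
    simpa using this
  have hm0 : 0 < m := by
    rw [hm]
    exact integral_exp_pos (by simpa using hmi)
  set M : ℝ := ∫ x : ℝ, (1 + |x|) * Real.exp (-((1 / 2) * x ^ 2)) with hM
  have hMi : Integrable (fun x : ℝ => (1 + |x|) * Real.exp (-((1 / 2) * x ^ 2))) :=
    intg (fun x => 1 + |x|) (by fun_prop) 1 1 (fun x => by
      rw [abs_of_nonneg (by positivity)]
      simp) (1 / 2) (by norm_num)
  have hM0 : 0 ≤ M := integral_nonneg fun x => by positivity
  set K : ℝ := C1 * ((1 + C3) * C2 * M) with hK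
  have hK0 : 0 ≤ K := by positivity
  refine ⟨K ^ p * 2 ^ (p - 1) * (1 + m ^ (p - 1)) + 1, by positivity, fun t => ?_⟩
  have e4 : ∀ x : ℝ, -(x ^ 2 / 4) = -((1 / 4) * x ^ 2) := fun x => by ring
  simp only [e4]
  refine ⟨zl_pow_int p (1 / 4) (by norm_num) t, ?_⟩
  set J : ℝ := ∫ v : ℝ, ‖zl (t + v)‖ * Real.exp (-((1 / 4) * v ^ 2)) with hJ
  have hJi : Integrable (fun v : ℝ => ‖zl (t + v)‖ * Real.exp (-((1 / 4) * v ^ 2))) := by
    simpa using zl_pow_int 1 (1 / 4) (by norm_num) t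
  have hJ0 : 0 ≤ J := integral_nonneg fun x => by positivity
  set I : ℝ := ∫ x : ℝ, ‖zl (t + x)‖ ^ p * Real.exp (-((1 / 4) * x ^ 2)) with hI
  have hIi : Integrable (fun v : ℝ => ‖zl (t + v)‖ ^ p * Real.exp (-((1 / 4) * v ^ 2))) :=
    zl_pow_int p (1 / 4) (by norm_num) t
  have hI0 : 0 ≤ I := integral_nonneg fun x => by positivity
  have ht1 : (1 : ℝ) ≤ 1 + |t| := by
    have := abs_nonneg t
    linarith
  have ht0 : (0 : ℝ) < 1 + |t| := by linarith
  -- the line `1/2 + δ`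
  have hs : ∀ x : ℝ, ‖zs δ (t + x)‖ * Real.exp (-x ^ 2) ≤
      C2 * Real.exp (-((1 / 2) * x ^ 2)) * (1 + J) := by
    intro x
    obtain ⟨hi, hb⟩ := h2 (t + x)
    have hsub : ∫ u : ℝ, ‖zl (t + x + u)‖ * Real.exp (-u ^ 2) =
        ∫ v : ℝ, ‖zl (t + v)‖ * Real.exp (-(v - x) ^ 2) := by
      rw [← integral_add_left_eq_self (fun v : ℝ => ‖zl (t + v)‖ * Real.exp (-(v - x) ^ 2)) x]
      congr 1
      funext u
      rw [show t + (x + u) = t + x + u by ring, show x + u - x = u by ring]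
    have hle : Real.exp (-x ^ 2) * ∫ v : ℝ, ‖zl (t + v)‖ * Real.exp (-(v - x) ^ 2) ≤
        Real.exp (-((1 / 2) * x ^ 2)) * J := by
      rw [hJ, ← integral_const_mul, ← integral_const_mul]
      refine integral_mono_of_nonneg (Filter.Eventually.of_forall fun v => by positivity)
        (hJi.const_mul _) (Filter.Eventually.of_forall fun v => ?_)
      change Real.exp (-x ^ 2) * (‖zl (t + v)‖ * Real.exp (-(v - x) ^ 2)) ≤
        Real.exp (-((1 / 2) * x ^ 2)) * (‖zl (t + v)‖ * Real.exp (-((1 / 4) * v ^ 2)))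
      have h5 : Real.exp (-x ^ 2) * Real.exp (-(v - x) ^ 2) ≤
          Real.exp (-((1 / 2) * x ^ 2)) * Real.exp (-((1 / 4) * v ^ 2)) := by
        rw [← Real.exp_add, ← Real.exp_add]
        apply Real.exp_le_exp.2
        nlinarith [sq_nonneg (x - (v - x))]
      have h6 := mul_le_mul_of_nonneg_left h5 (norm_nonneg (zl (t + v)))
      linarith
    have h7 : Real.exp (-x ^ 2) ≤ Real.exp (-((1 / 2) * x ^ 2)) := by
      apply Real.exp_le_exp.2
      nlinarith [sq_nonneg x]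
    rw [hsub] at hb
    calc ‖zs δ (t + x)‖ * Real.exp (-x ^ 2)
        ≤ (C2 * (1 + ∫ v : ℝ, ‖zl (t + v)‖ * Real.exp (-(v - x) ^ 2))) * Real.exp (-x ^ 2) := by gcongr
      _ = C2 * (Real.exp (-x ^ 2) +
          Real.exp (-x ^ 2) * ∫ v : ℝ, ‖zl (t + v)‖ * Real.exp (-(v - x) ^ 2)) := by ring
      _ ≤ C2 * (Real.exp (-((1 / 2) * x ^ 2)) + Real.exp (-((1 / 2) * x ^ 2)) * J) := by gcongr
      _ = _ := by ring
  have hmain : ‖zd t‖ ≤ K * (1 + |t|) ^ δ * (1 + J) := by
    obtain ⟨hi, hb⟩ := h1 t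
    refine hb.trans ?_
    have h8 : (∫ x : ℝ, (‖zs δ (t + x)‖ + ‖zs (-δ) (t + x)‖) * Real.exp (-x ^ 2)) ≤
        ∫ x : ℝ, ((1 + C3) * C2 * (1 + |t|) ^ δ * (1 + J)) *
          ((1 + |x|) * Real.exp (-((1 / 2) * x ^ 2))) := by
      refine integral_mono_of_nonneg (Filter.Eventually.of_forall fun v => by positivity)
        (hMi.const_mul _) (Filter.Eventually.of_forall fun x => ?_)
      change (‖zs δ (t + x)‖ + ‖zs (-δ) (t + x)‖) * Real.exp (-x ^ 2) ≤
        ((1 + C3) * C2 * (1 + |t|) ^ δ * (1 + J)) * ((1 + |x|) * Real.exp (-((1 / 2) * x ^ 2)))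
      have hx1 : (1 : ℝ) ≤ 1 + |x| := by
        have := abs_nonneg x
        linarith
      have h9 : (1 + |t + x|) ^ δ ≤ (1 + |t|) ^ δ * (1 + |x|) := by
        calc (1 + |t + x|) ^ δ ≤ ((1 + |t|) * (1 + |x|)) ^ δ := by
              apply Real.rpow_le_rpow (by positivity) _ hδ.le
              have h1 : |t + x| ≤ |t| + |x| := abs_add_le t x
              have h2 : 0 ≤ |t| * |x| := by positivity
              nlinarith
          _ = (1 + |t|) ^ δ * (1 + |x|) ^ δ := Real.mul_rpow (by positivity) (by positivity)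
          _ ≤ (1 + |t|) ^ δ * (1 + |x|) ^ (1 : ℝ) := by
              gcongr
              linarith
          _ = _ := by rw [Real.rpow_one]
      have h10 : ‖zs (-δ) (t + x)‖ ≤ C3 * ((1 + |t|) ^ δ * (1 + |x|)) * ‖zs δ (t + x)‖ := by
        refine (h3 (t + x)).trans ?_
        gcongr
      have h11 : 1 ≤ (1 + |t|) ^ δ * (1 + |x|) := by
        have := Real.one_le_rpow ht1 hδ.le
        nlinarith
      calc (‖zs δ (t + x)‖ + ‖zs (-δ) (t + x)‖) * Real.exp (-x ^ 2)
          ≤ (((1 + |t|) ^ δ * (1 + |x|)) * ‖zs δ (t + x)‖ +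
            C3 * ((1 + |t|) ^ δ * (1 + |x|)) * ‖zs δ (t + x)‖) * Real.exp (-x ^ 2) := by
            gcongr
            exact le_mul_of_one_le_left (norm_nonneg _) h11
        _ = ((1 + C3) * ((1 + |t|) ^ δ * (1 + |x|))) * (‖zs δ (t + x)‖ * Real.exp (-x ^ 2)) := by ring
        _ ≤ ((1 + C3) * ((1 + |t|) ^ δ * (1 + |x|))) *
            (C2 * Real.exp (-((1 / 2) * x ^ 2)) * (1 + J)) :=
            mul_le_mul_of_nonneg_left (hs x) (by positivity)
        _ = _ := by ring
    rw [integral_const_mul, ← hM] at h8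
    calc C1 * ∫ x : ℝ, (‖zs δ (t + x)‖ + ‖zs (-δ) (t + x)‖) * Real.exp (-x ^ 2)
        ≤ C1 * (((1 + C3) * C2 * (1 + |t|) ^ δ * (1 + J)) * M) := by gcongr
      _ = _ := by
        rw [hK]
        ring
  -- the inequality of Jensen
  have hjen : J ^ p ≤ m ^ (p - 1) * I := by
    set a : ℝ := J / m with ha
    have ha0 : 0 ≤ a := by positivity
    have hJa : J = a * m := by rw [ha, div_mul_cancel₀ _ hm0.ne']
    have htan : ∀ y : ℝ, 0 ≤ y → a ^ p + p * a ^ (p - 1) * (y - a) ≤ y ^ p := by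
      intro y hy
      rcases ha0.eq_or_lt with h | h
      · rw [← h]
        rcases Nat.lt_or_ge 1 p with h1 | h1
        · rw [zero_pow (by omega), zero_pow (by omega)]
          simp only [mul_zero, zero_mul, add_zero]
          positivity
        · have : p = 1 := by omega
          subst this
          simp
      · have h5 := one_add_mul_sub_le_pow (a := y / a) (by
          have : 0 ≤ y / a := by positivity
          linarith) p
        have h6 := mul_le_mul_of_nonneg_left h5 (pow_nonneg ha0 p)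
        rw [div_pow y a p, mul_div_cancel₀ _ (pow_pos h p).ne'] at h6
        refine le_trans (le_of_eq ?_) h6
        have h7 : a ^ p = a ^ (p - 1) * a := by
          rw [← pow_succ]
          congr 1
          omega
        rw [h7]
        field_simp
    have h12 : (a ^ p - p * a ^ (p - 1) * a) * m + p * a ^ (p - 1) * J ≤ I := by
      rw [hm, hJ, hI, ← integral_const_mul, ← integral_const_mul,
        ← integral_add (hmi.const_mul _) (hJi.const_mul _)]
      refine integral_mono ((hmi.const_mul _).add (hJi.const_mul _)) hIi fun v => ?_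
      change (a ^ p - p * a ^ (p - 1) * a) * Real.exp (-((1 / 4) * v ^ 2)) +
        p * a ^ (p - 1) * (‖zl (t + v)‖ * Real.exp (-((1 / 4) * v ^ 2))) ≤
        ‖zl (t + v)‖ ^ p * Real.exp (-((1 / 4) * v ^ 2))
      have h13 := mul_le_mul_of_nonneg_right (htan ‖zl (t + v)‖ (norm_nonneg _))
        (Real.exp_pos (-((1 / 4) * v ^ 2))).le
      refine le_trans (le_of_eq ?_) h13
      ring
    have h14 : a ^ p * m ≤ I := by
      refine le_trans (le_of_eq ?_) h12
      rw [hJa]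
      ring
    have h15 : m ^ p = m ^ (p - 1) * m := by
      rw [← pow_succ]
      congr 1
      omega
    rw [hJa, mul_pow, h15]
    have h16 := mul_le_mul_of_nonneg_left h14 (pow_nonneg hm0.le (p - 1))
    linarith
  have hrp : ((1 + |t|) ^ δ) ^ p = (1 + |t|) ^ ((p : ℝ) * δ) := by
    rw [← Real.rpow_natCast, ← Real.rpow_mul ht0.le, mul_comm]
  have hT0 : 0 ≤ (1 + |t|) ^ ((p : ℝ) * δ) := Real.rpow_nonneg ht0.le _
  calc ‖zd t‖ ^ p ≤ (K * (1 + |t|) ^ δ * (1 + J)) ^ p := by gcongr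
    _ = K ^ p * (1 + |t|) ^ ((p : ℝ) * δ) * (1 + J) ^ p := by
        rw [mul_pow, mul_pow, hrp]
    _ ≤ K ^ p * (1 + |t|) ^ ((p : ℝ) * δ) * (2 ^ (p - 1) * (1 ^ p + J ^ p)) := by
        gcongr
        exact add_pow_le zero_le_one hJ0 p
    _ ≤ K ^ p * (1 + |t|) ^ ((p : ℝ) * δ) * (2 ^ (p - 1) * ((1 + m ^ (p - 1)) * (1 + I))) := by
        gcongr
        rw [one_pow]
        have h17 : 0 ≤ m ^ (p - 1) := by positivity
        nlinarith
    _ = (K ^ p * 2 ^ (p - 1) * (1 + m ^ (p - 1))) * (1 + |t|) ^ ((p : ℝ) * δ) * (1 + I) := by ring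
    _ ≤ (K ^ p * 2 ^ (p - 1) * (1 + m ^ (p - 1)) + 1) * (1 + |t|) ^ ((p : ℝ) * δ) * (1 + I) := by
        gcongr
        linarith

end Pool.Agent.D0H24.DM
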